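import Pool.Agent.H31.GUF.Targets

/-!
Row FN of the board `guf_modules` (project GU on `MP_c59857_nt`): the final theorem.
-/

set_option autoImplicit false

open Finset Filter Topology

namespace Pool.Agent.H74.GUF

open Pool.Agent.H31.DP
open Pool.Agent.H31.GUF
open Pool.Agent.H28.GU (Gw gG hat T_HF)
open Pool.Agent.H24.T2 (box)

/-! ## The shift of the functions -/

theorem abs_fz_le {r : ℕ} (β : Fin r → ℤ) (δ : Fin r → ℕ) (m : ℤ) : |fz β δ m| ≤ 1 := by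
  rw [fz, Finset.abs_prod]
  refine Finset.prod_le_one (fun i _ => abs_nonneg _) fun i _ => ?_
  rw [abs_pow]
  refine pow_le_one₀ (abs_nonneg _) ?_
  exact_mod_cast ArithmeticFunction.abs_moebius_le_one

theorem fz_shift {r : ℕ} (β : Fin r → ℤ) (δ : Fin r → ℕ) (h : Fin r → ℕ) (B : ℕ)
    (hh : ∀ i, (h i : ℤ) = β i + B) (n : ℤ) :
    fz (fun i => (h i : ℤ)) δ n = fz β δ (n + B) := by
  rw [fz, fz]
  refine Finset.prod_congr rfl fun i _ => ?_
  have : n + (h i : ℤ) = n + B + β i := by rw [hh i]; ring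
  rw [this]

theorem Fo_shift {r : ℕ} (β : Fin r → ℤ) (δ : Fin r → ℕ) (h : Fin r → ℕ) (B : ℕ)
    (hh : ∀ i, (h i : ℤ) = β i + B) (n : ℤ) :
    Fo (fun i => (h i : ℤ)) δ n = Fo β δ (n + B) := by
  rw [Fo, Fo]
  refine Finset.prod_congr rfl fun i _ => ?_
  have : n + (h i : ℤ) = n + B + β i := by rw [hh i]; ring
  rw [this]

/-! ## Changing the exponent of the sums -/

theorem sum_shift (G : ℤ → ℂ) (hG : ∀ m, ‖G m‖ ≤ 1) (N B : ℕ) :
    ‖∑ n ∈ Finset.Icc (1 : ℤ) N, G n‖ ≤ ‖∑ n ∈ Finset.Icc (1 : ℤ) N, G (n + B)‖ + 2 * B := by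
  classical
  have h1 : ∑ n ∈ Finset.Icc (1 : ℤ) N, G (n + B) =
      ∑ m ∈ Finset.Icc (1 + (B : ℤ)) (N + B), G m := by
    rw [← Finset.map_add_right_Icc, Finset.sum_map]
    rfl
  have h2 := Finset.sum_sdiff_sub_sum_sdiff (s₁ := Finset.Icc (1 + (B : ℤ)) (N + B))
    (s₂ := Finset.Icc (1 : ℤ) N) (f := G)
  have hb : ∀ S : Finset ℤ, S.card ≤ B → ‖∑ i ∈ S, G i‖ ≤ B := by
    intro S hS
    calc ‖∑ i ∈ S, G i‖ ≤ ∑ i ∈ S, ‖G i‖ := norm_sum_le _ _
      _ ≤ ∑ i ∈ S, (1 : ℝ) := Finset.sum_le_sum fun i _ => hG i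
      _ = (S.card : ℝ) := by simp
      _ ≤ B := by exact_mod_cast hS
  have h3 : (Finset.Icc (1 : ℤ) N \ Finset.Icc (1 + (B : ℤ)) (N + B)).card ≤ B := by
    have hsub : Finset.Icc (1 : ℤ) N \ Finset.Icc (1 + (B : ℤ)) (N + B) ⊆
        Finset.Icc (1 : ℤ) B := by
      intro z hz
      rw [Finset.mem_sdiff, Finset.mem_Icc, Finset.mem_Icc] at hz
      rw [Finset.mem_Icc]
      omega
    have := Finset.card_le_card hsub
    rw [Int.card_Icc] at this
    omega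
  have h4 : (Finset.Icc (1 + (B : ℤ)) (N + B) \ Finset.Icc (1 : ℤ) N).card ≤ B := by
    have hsub : Finset.Icc (1 + (B : ℤ)) (N + B) \ Finset.Icc (1 : ℤ) N ⊆
        Finset.Icc ((N : ℤ) + 1) (N + B) := by
      intro z hz
      rw [Finset.mem_sdiff, Finset.mem_Icc, Finset.mem_Icc] at hz
      rw [Finset.mem_Icc]
      omega
    have := Finset.card_le_card hsub
    rw [Int.card_Icc] at this
    omega
  rw [h1]
  have h5 : ∑ n ∈ Finset.Icc (1 : ℤ) N, G n =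
      ∑ m ∈ Finset.Icc (1 + (B : ℤ)) (N + B), G m +
        (∑ i ∈ Finset.Icc (1 : ℤ) N \ Finset.Icc (1 + (B : ℤ)) (N + B), G i -
          ∑ i ∈ Finset.Icc (1 + (B : ℤ)) (N + B) \ Finset.Icc (1 : ℤ) N, G i) := by
    rw [h2]
    ring
  rw [h5]
  refine (norm_add_le _ _).trans ?_
  have h6 := norm_sub_le
    (∑ i ∈ Finset.Icc (1 : ℤ) N \ Finset.Icc (1 + (B : ℤ)) (N + B), G i)
    (∑ i ∈ Finset.Icc (1 + (B : ℤ)) (N + B) \ Finset.Icc (1 : ℤ) N, G i)
  have h7 := hb _ h3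
  have h8 := hb _ h4
  linarith

theorem bad_shift {r R J : ℕ} (β : Fin r → ℤ) (δ : Fin r → ℕ) (h : Fin r → ℕ) (B : ℕ)
    (hh : ∀ i, (h i : ℤ) = β i + B) (b₀ : Fin R → ℤ) (b : Fin J → Fin R → ℤ) (η : ℝ)
    (hη : 0 < η) (N : ℕ) (hN : 4 * (B : ℝ) ≤ η * N) (hBad : Bad β δ b₀ b η N) :
    Bad (fun i => (h i : ℤ)) δ b₀ b (η / 2) N := by
  classical
  obtain ⟨F, hF, hcard⟩ := hBad
  refine ⟨fun j m => F j (m + B), fun j m => hF j _, ?_⟩
  have hN0 : (0 : ℝ) ≤ (N : ℝ) := Nat.cast_nonneg N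
  have h1 : η / 2 * (N : ℝ) ^ R ≤ η * (N : ℝ) ^ R := by
    have : (0 : ℝ) ≤ η * (N : ℝ) ^ R := by positivity
    linarith
  refine lt_of_le_of_lt h1 (lt_of_lt_of_le hcard ?_)
  norm_cast
  refine Finset.card_le_card ?_
  intro t ht
  rw [Finset.mem_filter] at ht ⊢
  refine ⟨ht.1, ?_⟩
  set G : ℤ → ℂ := fun n => ((fz β δ (n + dot b₀ t) : ℝ) : ℂ) * ∏ j, F j (n + dot (b j) t)
    with hG
  have hG1 : ∀ m, ‖G m‖ ≤ 1 := by
    intro m
    rw [hG]
    simp only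
    rw [norm_mul, Complex.norm_real, Real.norm_eq_abs, norm_prod]
    have h2 : ∏ j, ‖F j (m + dot (b j) t)‖ ≤ 1 :=
      Finset.prod_le_one (fun j _ => norm_nonneg _) fun j _ => hF j _
    have h3 := abs_fz_le β δ (m + dot b₀ t)
    exact mul_le_one₀ h3 (Finset.prod_nonneg fun j _ => norm_nonneg _) h2
  have h2 := sum_shift G hG1 N B
  have h3 : ∑ n ∈ Finset.Icc (1 : ℤ) N, ((fz (fun i => (h i : ℤ)) δ (n + dot b₀ t) : ℝ) : ℂ) *
      ∏ j, F j (n + dot (b j) t + B) = ∑ n ∈ Finset.Icc (1 : ℤ) N, G (n + B) := by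
    refine Finset.sum_congr rfl fun n _ => ?_
    rw [hG]
    simp only
    rw [fz_shift β δ h B hh]
    have e : ∀ z : ℤ, n + (B : ℤ) + z = n + z + B := fun z => by ring
    simp only [e]
  rw [h3]
  have h4 : η * N < ‖∑ n ∈ Finset.Icc (1 : ℤ) N, G n‖ := ht.2
  linarith

/-! ## The obstructions -/

theorem sum_res_shift (G : ℤ → ℝ) (q n₀ M B : ℕ) :
    ∑ n ∈ (Finset.Icc 1 M).filter (fun n : ℕ => n ≡ n₀ [MOD q]), G ((n : ℤ) + B) =
      ∑ n ∈ (Finset.Icc 1 (M + B)).filter (fun n : ℕ => n ≡ n₀ + B [MOD q]), G (n : ℤ) -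
        ∑ n ∈ (Finset.Icc 1 B).filter (fun n : ℕ => n ≡ n₀ + B [MOD q]), G (n : ℤ) := by
  induction M with
  | zero =>
    simp
  | succ M ih =>
    rw [Finset.sum_filter] at ih ⊢
    rw [Finset.sum_Icc_succ_top (by omega), ih]
    rw [Finset.sum_filter (s := Finset.Icc 1 (M + B)),
      Finset.sum_filter (s := Finset.Icc 1 (M + 1 + B))]
    rw [show M + 1 + B = M + B + 1 by ring, Finset.sum_Icc_succ_top (by omega)]
    have h1 : (M + 1 ≡ n₀ [MOD q]) ↔ (M + B + 1 ≡ n₀ + B [MOD q]) := by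
      rw [show M + B + 1 = M + 1 + B by ring]
      exact ⟨fun h => h.add_right B, fun h => Nat.ModEq.add_right_cancel' B h⟩
    have h2 : (((M + 1 : ℕ) : ℤ) + (B : ℤ)) = ((M + B + 1 : ℕ) : ℤ) := by push_cast; ring
    rw [h2]
    by_cases h3 : M + 1 ≡ n₀ [MOD q]
    · rw [if_pos h3, if_pos (h1.1 h3)]
      ring
    · rw [if_neg h3, if_neg (fun h => h3 (h1.2 h))]
      ring

theorem noObs_shift {r : ℕ} (β : Fin r → ℤ) (δ : Fin r → ℕ) (h : Fin r → ℕ) (B : ℕ)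
    (hh : ∀ i, (h i : ℤ) = β i + B) (K₀ N : ℕ) (hK₀ : 0 < K₀) (hN : B ≤ N)
    (hO : NoObs β δ (2 * K₀) N) : NoObs (fun i => (h i : ℤ)) δ K₀ N := by
  intro q n₀ M hq hqK hM
  have h1 : ∑ n ∈ (Finset.Icc 1 M).filter (fun n : ℕ => n ≡ n₀ [MOD q]),
      Fo (fun i => (h i : ℤ)) δ (n : ℤ) =
      ∑ n ∈ (Finset.Icc 1 M).filter (fun n : ℕ => n ≡ n₀ [MOD q]), Fo β δ ((n : ℤ) + B) :=
    Finset.sum_congr rfl fun n _ => Fo_shift β δ h B hh _
  rw [h1, sum_res_shift (fun z => Fo β δ z)]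
  have hKN : K₀ * N + B ≤ 2 * K₀ * N := by nlinarith
  have h2 := hO q (n₀ + B) (M + B) hq (by omega) (by omega)
  have h3 := hO q (n₀ + B) B hq (by omega) (by nlinarith)
  have h4 := abs_sub
    (∑ n ∈ (Finset.Icc 1 (M + B)).filter (fun n : ℕ => n ≡ n₀ + B [MOD q]), Fo β δ (n : ℤ))
    (∑ n ∈ (Finset.Icc 1 B).filter (fun n : ℕ => n ≡ n₀ + B [MOD q]), Fo β δ (n : ℤ))
  have hK : (0 : ℝ) < (K₀ : ℝ) := by exact_mod_cast hK₀
  have h5 : (N : ℝ) / ((2 * K₀ : ℕ) : ℝ) + (N : ℝ) / ((2 * K₀ : ℕ) : ℝ) = N / K₀ := by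
    push_cast
    field_simp
    ring
  linarith

theorem noObs_anti {r : ℕ} (β : Fin r → ℤ) (δ : Fin r → ℕ) (K₁ K N : ℕ) (hK₁ : 0 < K₁)
    (hK : K₁ ≤ K) (hO : NoObs β δ K N) : NoObs β δ K₁ N := by
  intro q n₀ M hq hqK hM
  refine (hO q n₀ M hq (by omega) (hM.trans (Nat.mul_le_mul_right N hK))).trans ?_
  have h1 : (0 : ℝ) < (K₁ : ℝ) := by exact_mod_cast hK₁
  have h2 : (K₁ : ℝ) ≤ K := by exact_mod_cast hK
  gcongr

/-! ## Sums over the scales -/

theorem sum_three (S : Finset ℕ) (P P₁ P₂ P₃ : ℕ → Prop) {D : DecidablePred P}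
    {D₁ : DecidablePred P₁} {D₂ : DecidablePred P₂} {D₃ : DecidablePred P₃} (w : ℕ → ℝ)
    (hw : ∀ N, 0 ≤ w N) (hP : ∀ N ∈ S, P N → P₁ N ∨ P₂ N ∨ P₃ N) :
    ∑ N ∈ S.filter P, w N ≤ ∑ N ∈ S.filter P₁, w N + ∑ N ∈ S.filter P₂, w N +
      ∑ N ∈ S.filter P₃, w N := by
  rw [Finset.sum_filter, Finset.sum_filter, Finset.sum_filter, Finset.sum_filter,
    ← Finset.sum_add_distrib, ← Finset.sum_add_distrib]
  refine Finset.sum_le_sum fun N hN => ?_
  have h0 := hw N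
  by_cases h : P N
  · rw [if_pos h]
    rcases hP N hN h with h1 | h1 | h1
    · rw [if_pos h1]
      split_ifs <;> linarith
    · rw [if_pos h1]
      split_ifs <;> linarith
    · rw [if_pos h1]
      split_ifs <;> linarith
  · rw [if_neg h]
    split_ifs <;> linarith

theorem sum_small (N₀ x y : ℕ) (hx : 0 < x) {D : DecidablePred (fun N : ℕ => N < N₀)} :
    ∑ N ∈ (Finset.Icc x y).filter (fun N : ℕ => N < N₀), (1 / (N : ℝ)) ≤ N₀ := by
  calc ∑ N ∈ (Finset.Icc x y).filter (fun N : ℕ => N < N₀), (1 / (N : ℝ))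
      ≤ ∑ N ∈ (Finset.Icc x y).filter (fun N : ℕ => N < N₀), (1 : ℝ) := by
        refine Finset.sum_le_sum fun N hN => ?_
        rw [Finset.mem_filter, Finset.mem_Icc] at hN
        have : (1 : ℝ) ≤ N := by exact_mod_cast (by omega : 1 ≤ N)
        rw [div_le_one (by linarith)]
        exact this
    _ = (((Finset.Icc x y).filter (fun N : ℕ => N < N₀)).card : ℝ) := by simp
    _ ≤ N₀ := by
        have h1 : (Finset.Icc x y).filter (fun N : ℕ => N < N₀) ⊆ Finset.range N₀ := by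
          intro N hN
          rw [Finset.mem_filter] at hN
          exact Finset.mem_range.2 hN.2
        have := Finset.card_le_card h1
        rw [Finset.card_range] at this
        exact_mod_cast this

open Classical in
theorem pair_part (hNP : F_NP) {r : ℕ} (β : Fin r → ℤ) (δ : Fin r → ℕ) (L : ℕ) (ρ : ℝ)
    (hL : 0 < L) (hρ : 0 < ρ) : ∃ K : ℕ, ∀ x y : ℕ, 0 < x → K * x ≤ y → x ≤ y →
      ∑ N ∈ (Finset.Icc x y).filter (fun N : ℕ => Pair β δ ∧ ¬ NoObs β δ L N),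
        (1 / (N : ℝ)) ≤ ρ * Real.log ((y : ℝ) / x) := by
  by_cases hP : Pair β δ
  · obtain ⟨K, hK⟩ := hNP r β δ L ρ hP hL hρ
    refine ⟨K, fun x y hx hy _ => ?_⟩
    have := hK x y hx hy
    simp only [hP, true_and]
    exact this
  · refine ⟨0, fun x y hx _ hxy => ?_⟩
    have h1 : (Finset.Icc x y).filter (fun N : ℕ => Pair β δ ∧ ¬ NoObs β δ L N) = ∅ := by
      rw [Finset.filter_eq_empty_iff]
      intro N _ h
      exact hP h.1
    rw [h1, Finset.sum_empty]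
    have hx' : (0 : ℝ) < x := by exact_mod_cast hx
    have h2 : (1 : ℝ) ≤ (y : ℝ) / x := by
      rw [le_div_iff₀ hx', one_mul]
      exact_mod_cast hxy
    have := Real.log_nonneg h2
    positivity

theorem pf_FN (hF0 : F_F0) (hNP : F_NP) : F_FN := by
  classical
  intro r β δ R J b₀ b η ρ hδ hb hη hρ
  set B : ℕ := ∑ i, (β i).natAbs with hB
  have hβB : ∀ i, 0 ≤ β i + B := by
    intro i
    have h1 : (β i).natAbs ≤ B := by
      rw [hB]
      exact Finset.single_le_sum (f := fun i => (β i).natAbs) (fun _ _ => Nat.zero_le _)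
        (Finset.mem_univ i)
    omega
  set h : Fin r → ℕ := fun i => (β i + B).toNat with hh0
  have hh : ∀ i, (h i : ℤ) = β i + B := fun i => Int.toNat_of_nonneg (hβB i)
  obtain ⟨K₀, hK₀, h0⟩ := hF0 r h δ R J b₀ b (η / 2) (ρ / 4) hδ hb (by positivity) (by positivity)
  obtain ⟨K₂, h2⟩ := pair_part hNP β δ (2 * K₀) (ρ / 4) (by omega) (by positivity)
  set N₀ : ℕ := ⌈4 * (B : ℝ) / η⌉₊ + B with hN₀
  set K : ℕ := max (max (2 * K₀) K₂) ⌈Real.exp (4 * N₀ / ρ)⌉₊ with hK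
  have hK1 : 2 * K₀ ≤ K := (le_max_left _ _).trans (le_max_left _ _)
  have hK2 : K₂ ≤ K := (le_max_right _ _).trans (le_max_left _ _)
  have hK3 : Real.exp (4 * N₀ / ρ) ≤ K := by
    have h3 : ⌈Real.exp (4 * N₀ / ρ)⌉₊ ≤ K := le_max_right _ _
    exact (Nat.le_ceil _).trans (by exact_mod_cast h3)
  refine ⟨K, fun x y hx hxy => ?_⟩
  have hx' : (0 : ℝ) < x := by exact_mod_cast hx
  have hmul : ∀ k : ℕ, k ≤ K → k * x ≤ y := fun k hk => (Nat.mul_le_mul_right x hk).trans hxy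
  have hxy' : x ≤ y := by
    have := hmul 1 (by omega)
    omega
  have hlog : 4 * N₀ / ρ ≤ Real.log ((y : ℝ) / x) := by
    have h3 : Real.exp (4 * N₀ / ρ) ≤ (y : ℝ) / x := by
      refine hK3.trans ?_
      rw [le_div_iff₀ hx']
      exact_mod_cast hxy
    have := Real.log_le_log (Real.exp_pos _) h3
    rwa [Real.log_exp] at this
  have hlog0 : 0 ≤ Real.log ((y : ℝ) / x) := le_trans (by positivity) hlog
  have key : ∀ N ∈ Finset.Icc x y, ((Pair β δ ∨ NoObs β δ K N) ∧ Bad β δ b₀ b η N) →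
      N < N₀ ∨ (Pair β δ ∧ ¬ NoObs β δ (2 * K₀) N) ∨
      (NoObs (fun i => (h i : ℤ)) δ K₀ N ∧ Bad (fun i => (h i : ℤ)) δ b₀ b (η / 2) N) := by
      intro N hN hP
      by_cases hsm : N < N₀
      · exact Or.inl hsm
      · right
        have hNN : N₀ ≤ N := not_lt.1 hsm
        by_cases hO : NoObs β δ (2 * K₀) N
        · right
          have hBN : B ≤ N := by omega
          refine ⟨noObs_shift β δ h B hh K₀ N hK₀ hBN hO, ?_⟩
          refine bad_shift β δ h B hh b₀ b η hη N ?_ hP.2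
          have h3 : 4 * (B : ℝ) / η ≤ N := by
            have h4 : ⌈4 * (B : ℝ) / η⌉₊ ≤ N := by omega
            exact (Nat.le_ceil _).trans (by exact_mod_cast h4)
          rw [div_le_iff₀ hη] at h3
          linarith
        · left
          refine ⟨?_, hO⟩
          rcases hP.1 with h3 | h3
          · exact h3
          · exact absurd (noObs_anti β δ (2 * K₀) K N (by omega) hK1 h3) hO
  have k2 := h2 x y hx (hmul K₂ hK2) hxy'
  have k3 := h0 x y hx (hmul K₀ (by omega))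
  have k4 : (N₀ : ℝ) ≤ ρ / 4 * Real.log ((y : ℝ) / x) := by
    rw [div_le_iff₀ hρ] at hlog
    linarith
  have k5 : 0 ≤ ρ * Real.log ((y : ℝ) / x) := by positivity
  have k6 := add_le_add (add_le_add ((sum_small N₀ x y hx (D := Classical.decPred _)).trans k4)
    k2) k3
  refine (sum_three (Finset.Icc x y) _ _ _ _ (fun N => 1 / (N : ℝ)) (fun N => by positivity)
    key).trans (k6.trans ?_)
  linarith

end Pool.Agent.H74.GUF
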